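import Pool.Agent.KS6_1.PPO.Main

/-!
# Obstructions to pp-constructibility from an arbitrary finite structure

`C i`, `i ∈ ι`, is a family of obstructions for the structure `A` if it consists of finite
structures and a structure `B` has no pp-construction from `A` if and only if it pp-constructs some
`C i`.  Question Q1 asks for a countable family of obstructions for the two-element path `P₂`.

* Every structure with a finite domain (and a finite or infinite signature) has a countable family
  of obstructions, which works for all `B` with a finite domain, also for infinite signatures.
* Infinitely many obstructions are necessary for every `A` which has no pp-construction from `P₁`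
  and pp-constructs only few directed cycles of prime length (infinitely many of them are not
  constructed).  This holds for `A = P₂`, so the least number of obstructions for `P₂` is `ℵ₀`.
* One obstruction is enough for the structures with a pp-construction from `P₁`: `P₂` or `P₁`.
* Every structure has a pp-construction from `P₁` or pp-constructs `P₂`.
* A structure which has pp-constructions from infinitely many directed cycles of prime length has one
  from `P₂`: every obstruction for `P₂` covers only finitely many of these cycles.

The last point is the main one: the group of rotations of a directed cycle of prime length `p` acts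
freely on the minors of arity `p` of the idempotent operations of arity less than `p` on two
elements, and this gives a minor-preserving map from these operations to the polymorphisms of the
cycle.
-/

set_option autoImplicit false

namespace Pool.Agent.Results.MP_8f9fef_lc.EveryStructure

open Pool.Agent.X235.PPC Pool.Agent.KS6_1.PPO

/-- **The number of obstructions to pp-constructibility.**
(1) Every structure `A` with a finite domain has a countable family of obstructions.
(2) For `P₂` there is a sequence of obstructions (the question).
(3) All families of obstructions for `A` are infinite if `A` has no pp-construction from `P₁` and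
infinitely many directed cycles of prime length `k + 1` have none from `A`.
(4) `P₂` is such a structure: all families of obstructions for `P₂` are infinite, even those for the
finite structures `B` only; a structure that is not constructible from `P₂` has pp-constructions from
only finitely many directed cycles of prime length.
(5) If `A` has a pp-construction from `P₁` then one obstruction is enough: `P₂` if `A` pp-constructs
`P₁`, and otherwise `P₁`.
(6) Every `A` has a pp-construction from `P₁` or pp-constructs `P₂`, and not both. -/
theorem result :
    (∀ A : Str, ∃ (ι : Type) (_ : Countable ι) (C : ι → Str), StrongObstructions A C) ∧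
    (∃ C : ℕ → Str, StrongObstructions P2 C) ∧
    (∀ A : Str, ¬ PPConstructs P1 A →
      {k : ℕ | (k + 1).Prime ∧ ¬ PPConstructs A (Cycle k)}.Infinite →
      ∀ (ι : Type) (C : ι → Str), Obstructions A C → Infinite ι) ∧
    ((∀ (ι : Type) (C : ι → Str), Obstructions P2 C → Infinite ι) ∧
      (∀ k : ℕ, (k + 1).Prime → ¬ PPConstructs P2 (Cycle k)) ∧
      ∀ C : Str, ¬ PPConstructs P2 C →
        {k : ℕ | (k + 1).Prime ∧ PPConstructs (Cycle k) C}.Finite) ∧
    (∀ A : Str, PPConstructs P1 A →
      (PPConstructs A P1 → StrongObstructions A (fun _ : Unit => P2)) ∧
      (¬ PPConstructs A P1 → StrongObstructions A (fun _ : Unit => P1))) ∧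
    ∀ A : Str, (PPConstructs P1 A ∨ PPConstructs A P2) ∧
      ¬ (PPConstructs P1 A ∧ PPConstructs A P2) := by
  refine ⟨fun A => ?_, sequence_P2, fun A h1 h2 ι C hC => infinite_of_obstructions h1 h2 hC,
    ⟨fun ι C hC => infinite_of_obstructions not_P1_P2 infinite_P2 hC,
      fun k hk => not_P2_prime hk, fun C hC => ?_⟩, fun A h1 => ⟨fun h2 => ?_, fun h2 => ?_⟩,
    fun A => ⟨dichotomy A, fun h => not_P1_P2 (PPConstructs.trans h.1 h.2)⟩⟩
  · obtain ⟨ι, hι, C, h1, h2⟩ := countable_obstructions A
    exact ⟨ι, hι, C, h1, h2⟩
  · by_contra h
    exact hC (pp_of_infinite h)
  · refine ⟨fun _ => inferInstanceAs (Finite Unit), fun B => ?_⟩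
    rw [obstruction_P1 h1 h2 B]
    exact ⟨fun h => ⟨(), h⟩, fun ⟨_, h⟩ => h⟩
  · refine ⟨fun _ => inferInstanceAs (Finite Unit), fun B => ?_⟩
    rw [obstruction_loop h2 B]
    exact ⟨fun h => ⟨(), h⟩, fun ⟨_, h⟩ => h⟩

end Pool.Agent.Results.MP_8f9fef_lc.EveryStructure
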